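import Pool.Agent.W661.RC.Stm2
import Pool.Agent.N44.NS.Defs

/-!
# Project MS: a matricially stable group which is not Hilbert-Schmidt stable (statements)

`K` is a group with property (T) and an endomorphism `φ`, `G` a group generated by (the image of)
`K` and an element `t` with `φ k = t⁻¹ k t`.  Every asymptotic homomorphism of `G` in the operator
norm is asymptotically trivial on `K`.
-/

set_option autoImplicit false

namespace Pool.Agent.N139.MS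

open Filter Topology Matrix
open Pool.Agent.W661.RC (HasT Mt hs IsPr PtbP PtcP)
open Pool.Agent.N44.NS (E3 el)

noncomputable section

/-- The operator norm of a matrix (as in the frozen statement). -/
def on {d : ℕ} (M : Mt d) : ℝ := ‖Matrix.toEuclideanCLM (n := Fin d) (𝕜 := ℂ) M‖

/-- The energy of a vector. -/
def E {k : ℕ} {H : Type} [NormedAddCommGroup H] [InnerProductSpace ℂ H] [CompleteSpace H]
    (ρ : FreeGroup (Fin k) →* unitary (H →L[ℂ] H)) (v : H) : ℝ :=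
  ∑ s, ‖(ρ (FreeGroup.of s) : H →L[ℂ] H) v - v‖ ^ 2

/-- GAP: the subspace of the almost invariant vectors of an approximate representation of a group
with property (T) (spectral gap). -/
def S_GAP : Prop :=
  ∀ (K : Type) [Group K] (k : ℕ) (γ : FreeGroup (Fin k) →* K), HasT K → Function.Surjective γ →
    ∃ c : ℝ, 0 < c ∧ ∃ (δ : ℝ → ℝ) (R : ℝ → Finset (FreeGroup (Fin k))),
      (∀ η, 0 < η → 0 < δ η) ∧ (∀ η, ∀ w ∈ R η, γ w = 1) ∧
      ∀ (H : Type) [NormedAddCommGroup H] [InnerProductSpace ℂ H] [CompleteSpace H]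
        [FiniteDimensional ℂ H] (ρ : FreeGroup (Fin k) →* unitary (H →L[ℂ] H)),
        ∃ V : Submodule ℂ H, (∀ v : H, c * ‖v - V.starProjection v‖ ^ 2 ≤ E ρ v) ∧
          ∀ η, 0 < η → (∀ w ∈ R η, ∀ v : H, ‖(ρ w : H →L[ℂ] H) v - v‖ ≤ δ η * ‖v‖) →
            ∀ v ∈ V, E ρ v ≤ η * ‖v‖ ^ 2

/-- ROT: if a unitary operator maps a finite dimensional subspace almost into itself, then so does
its inverse. -/
def S_ROT : Prop :=
  ∀ (H : Type) [NormedAddCommGroup H] [InnerProductSpace ℂ H] [CompleteSpace H]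
    [FiniteDimensional ℂ H] (V : Submodule ℂ H) (T : unitary (H →L[ℂ] H)) (ε : ℝ), ε < 1 →
    (∀ v ∈ V, ‖(T : H →L[ℂ] H) v - V.starProjection ((T : H →L[ℂ] H) v)‖ ≤ ε * ‖v‖) →
    ∀ v ∈ V, ‖((T⁻¹ : unitary (H →L[ℂ] H)) : H →L[ℂ] H) v -
      V.starProjection (((T⁻¹ : unitary (H →L[ℂ] H)) : H →L[ℂ] H) v)‖ ≤ ε * ‖v‖

/-- INV: almost invariant vectors stay almost invariant under `T⁻¹`, if `T⁻¹ ρ(s) T` is close to
`ρ(w_s)`. -/
def S_INV : Prop :=
  ∀ (K : Type) [Group K] (k : ℕ) (γ : FreeGroup (Fin k) →* K), HasT K → Function.Surjective γ →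
    ∀ (ws : Fin k → FreeGroup (Fin k)) (ε : ℝ), 0 < ε →
    ∃ δ : ℝ, 0 < δ ∧ ∃ R : Finset (FreeGroup (Fin k)), (∀ w ∈ R, γ w = 1) ∧
      ∀ (H : Type) [NormedAddCommGroup H] [InnerProductSpace ℂ H] [CompleteSpace H]
        [FiniteDimensional ℂ H] (ρ : FreeGroup (Fin k) →* unitary (H →L[ℂ] H))
        (T : unitary (H →L[ℂ] H)),
        (∀ w ∈ R, ∀ v : H, ‖(ρ w : H →L[ℂ] H) v - v‖ ≤ δ * ‖v‖) →
        (∀ s, ∀ v : H, ‖((T⁻¹ * ρ (FreeGroup.of s) * T : unitary (H →L[ℂ] H)) : H →L[ℂ] H) v -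
          (ρ (ws s) : H →L[ℂ] H) v‖ ≤ δ * ‖v‖) →
        ∀ x : H, E ρ x ≤ δ * ‖x‖ ^ 2 →
          E ρ (((T⁻¹ : unitary (H →L[ℂ] H)) : H →L[ℂ] H) x) ≤ ε * ‖x‖ ^ 2

/-- The relations of `K` hold asymptotically (operator norm, along the filter `l`). -/
def AH {K : Type} [Group K] {k : ℕ} (γ : FreeGroup (Fin k) →* K) (l : Filter ℕ) (d : ℕ → ℕ)
    (U : ∀ n, Fin k → Matrix.unitaryGroup (Fin (d n)) ℂ) : Prop :=
  ∀ w, γ w = 1 → Tendsto (fun n => on ((FreeGroup.lift (U n) w).val - 1)) l (𝓝 0)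

/-- `T⁻¹ u_s T` is asymptotically the word `w_s`. -/
def TW {k : ℕ} (ws : Fin k → FreeGroup (Fin k)) (l : Filter ℕ) (d : ℕ → ℕ)
    (U : ∀ n, Fin k → Matrix.unitaryGroup (Fin (d n)) ℂ)
    (T : ∀ n, Matrix.unitaryGroup (Fin (d n)) ℂ) : Prop :=
  ∀ s, Tendsto (fun n => on (((T n)⁻¹ * U n s * T n).val - (FreeGroup.lift (U n) (ws s)).val))
    l (𝓝 0)

/-- HSV: the Hilbert-Schmidt version of `S_INV`. -/
def S_HSV : Prop :=
  ∀ (K : Type) [Group K] (k : ℕ) (γ : FreeGroup (Fin k) →* K), HasT K → Function.Surjective γ →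
    ∀ (ws : Fin k → FreeGroup (Fin k)) (l : Filter ℕ) (d : ℕ → ℕ)
      (U : ∀ n, Fin k → Matrix.unitaryGroup (Fin (d n)) ℂ)
      (T : ∀ n, Matrix.unitaryGroup (Fin (d n)) ℂ), AH γ l d U → TW ws l d U T →
      ∀ x : ∀ n, Mt (d n), (∀ n, hs (x n) ≤ 1) →
        (∀ s, Tendsto (fun n => hs ((U n s).val * x n - x n * (U n s).val)) l (𝓝 0)) →
        ∀ s, Tendsto (fun n => hs ((U n s).val * ((T n)⁻¹.val * x n * (T n).val) -
          ((T n)⁻¹.val * x n * (T n).val) * (U n s).val)) l (𝓝 0)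

/-- PRJ: the projection onto the vectors which are not almost invariant. -/
def S_PRJ : Prop :=
  ∀ (K : Type) [Group K] (k : ℕ) (γ : FreeGroup (Fin k) →* K), HasT K → Function.Surjective γ →
    ∃ c : ℝ, 0 < c ∧ ∀ (ws : Fin k → FreeGroup (Fin k)) (l : Filter ℕ) (d : ℕ → ℕ)
      (U : ∀ n, Fin k → Matrix.unitaryGroup (Fin (d n)) ℂ)
      (T : ∀ n, Matrix.unitaryGroup (Fin (d n)) ℂ), AH γ l d U → TW ws l d U T →
      ∃ P : ∀ n, Mt (d n), (∀ n, IsPr (P n)) ∧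
        (∀ n, c * hs (P n) ≤ ∑ s, hs (((U n s).val - 1) * P n)) ∧
        (∀ s, Tendsto (fun n => on ((U n s).val * P n - P n * (U n s).val)) l (𝓝 0)) ∧
        Tendsto (fun n => on ((T n).val * P n - P n * (T n).val)) l (𝓝 0) ∧
        ∀ s, Tendsto (fun n => on (((U n s).val - 1) * (1 - P n))) l (𝓝 0)

/-- The property of the endomorphism `φ` of `K`: every normal subgroup which contains the
commutators `[b, a]` for `a` in the centraliser of `φ(K)` and `b` in `K` and which contains `k` as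
soon as it contains `φ k`, is `K`. -/
def Cpr {K : Type} [Group K] (φ : K →* K) : Prop :=
  ∀ M : Subgroup K, M.Normal → (∀ a b : K, (∀ k, a * φ k = φ k * a) → b * a * b⁻¹ * a⁻¹ ∈ M) →
    (∀ k, φ k ∈ M → k ∈ M) → M = ⊤

/-- RIG: the rigidity theorem for representations of free groups. -/
def S_RIG : Prop :=
  ∀ (K : Type) [Group K] (k : ℕ) (γ : FreeGroup (Fin k) →* K) (φ : K →* K),
    HasT K → Function.Surjective γ → Cpr φ →
    ∀ (ws : Fin k → FreeGroup (Fin k)), (∀ s, γ (ws s) = φ (γ (FreeGroup.of s))) →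
    ∀ (l : Filter ℕ) (d : ℕ → ℕ) (U : ∀ n, Fin k → Matrix.unitaryGroup (Fin (d n)) ℂ)
      (T : ∀ n, Matrix.unitaryGroup (Fin (d n)) ℂ), AH γ l d U → TW ws l d U T →
      ∀ w, Tendsto (fun n => on ((FreeGroup.lift (U n) w).val - 1)) l (𝓝 0)

/-- Asymptotic homomorphisms for the operator norm. -/
def OpAH {G : Type} [Group G] (d : ℕ → ℕ) (f : ∀ n, G → Matrix.unitaryGroup (Fin (d n)) ℂ) :
    Prop :=
  ∀ g h : G, Tendsto (fun n => on ((f n (g * h)).val - (f n g).val * (f n h).val)) atTop (𝓝 0)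

/-- TRIV: asymptotic homomorphisms for the operator norm are asymptotically trivial on `K`. -/
def S_TRIV : Prop :=
  ∀ (K G : Type) [Group K] [Group G] (φ : K →* K) (ι : K →* G) (t : G), HasT K → Cpr φ →
    (∀ k, ι (φ k) = t⁻¹ * ι k * t) → ∀ (d : ℕ → ℕ)
      (f : ∀ n, G → Matrix.unitaryGroup (Fin (d n)) ℂ), OpAH d f →
      ∀ k : K, Tendsto (fun n => on ((f n (ι k)).val - 1)) atTop (𝓝 0)

/-- RING: the algebra generated by the truncated Leavitt operators. -/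
def S_RING : Prop :=
  ∃ (R : Type) (_ : Ring R) (_ : Algebra (ZMod 257) R) (g : Fin 4 → R) (ψ : R →ₙ+* R) (p : R)
    (L : ℕ → Type) (_ : ∀ n, Finite (L n))
    (π : ∀ n, R →+* Module.End (ZMod 257) (L n → ZMod 257)),
    Algebra.adjoin (ZMod 257) (Set.range g) = ⊤ ∧ p * p = p ∧ (∀ r, p * ψ r = 0) ∧
      (∀ r, ψ r * p = 0) ∧ (∃ a b : R, ψ 1 = a * p * b) ∧
      ∀ n i, i ≤ n → π n (ψ^[i] 1) ≠ 0

/-- EPHI: the endomorphism of `E_3(R)` given by `ψ`. -/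
def S_EPHI : Prop :=
  ∀ (R : Type) [Ring R] (ψ : R →ₙ+* R) (p : R), p * p = p → (∀ r, p * ψ r = 0) →
    (∀ r, ψ r * p = 0) → (∃ a b : R, ψ 1 = a * p * b) →
    ∃ φ : E3 R →* E3 R, Cpr φ ∧
      ∀ (i j : Fin 3) (h : i ≠ j) (r : R) (g : E3 R), g.val = el i j h r →
        (φ g).val = el i j h (ψ r)

/-- The permutation data: `u_n` are actions of `K` on finite sets, `T_n` permutations which nearly
implement `φ`, and `k₀` has few fixed points. -/
structure PD {K : Type} [Group K] (φ : K →* K) (m : ℕ → ℕ)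
    (u : ∀ n, K →* Equiv.Perm (Fin (m n))) (T : ∀ n, Equiv.Perm (Fin (m n))) (k₀ : K) : Prop where
  pos : ∀ n, 0 < m n
  tw : ∀ k, Tendsto (fun n => (Nat.card {z : Fin (m n) // ((T n)⁻¹ * u n k * T n) z ≠
    u n (φ k) z} : ℝ) / m n) atTop (𝓝 0)
  nt : ∀ n, 2 * Nat.card {z : Fin (m n) // u n k₀ z = z} ≤ m n

/-- PERM: the permutation data for `E_3(R)`. -/
def S_PERM : Prop :=
  ∀ (R : Type) [Ring R] (ψ : R → R) (L : ℕ → Type) [∀ n, Finite (L n)]
    (π : ∀ n, R →+* Module.End (ZMod 257) (L n → ZMod 257)) (φ : E3 R →* E3 R),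
    (∀ (i j : Fin 3) (h : i ≠ j) (r : R) (g : E3 R), g.val = el i j h r →
        (φ g).val = el i j h (ψ r)) →
    (∀ n i, i ≤ n → π n (ψ^[i] 1) ≠ 0) →
    ∃ (m : ℕ → ℕ) (u : ∀ n, E3 R →* Equiv.Perm (Fin (m n))) (T : ∀ n, Equiv.Perm (Fin (m n)))
      (k₀ : E3 R), PD φ m u T k₀

/-- The squared normalised Hilbert-Schmidt norm, as in the frozen statement. -/
def h2 {d : ℕ} (M : Mt d) : ℝ :=
  (Matrix.trace (Matrix.conjTranspose M * M)).re / (d : ℝ)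

/-- GRP: the group `G`. -/
def S_GRP : Prop :=
  ∀ (K : Type) [Group K] [Countable K] (φ : K →* K) (m : ℕ → ℕ)
    (u : ∀ n, K →* Equiv.Perm (Fin (m n))) (T : ∀ n, Equiv.Perm (Fin (m n))) (k₀ : K),
    PD φ m u T k₀ →
    ∃ (G : Type) (_ : Group G) (_ : Countable G) (ι : K →* G) (t : G)
      (χ : G →* Multiplicative ℤ), (∀ k, ι (φ k) = t⁻¹ * ι k * t) ∧
      Subgroup.closure (Set.range ι ∪ {t}) = ⊤ ∧ (∀ k, χ (ι k) = 1) ∧
      χ t = Multiplicative.ofAdd 1 ∧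
      ∃ f : ∀ n, G → Matrix.unitaryGroup (Fin (m n)) ℂ,
        (∀ g h : G, Tendsto (fun n => h2 ((f n (g * h)).val - (f n g).val * (f n h).val))
          atTop (𝓝 0)) ∧
        ¬ Tendsto (fun n => h2 ((f n (ι k₀)).val - 1)) atTop (𝓝 0)

/-- FIN: the conclusion for a group `G` as in `S_GRP`. -/
def S_FIN : Prop :=
  ∀ (K G : Type) [Group K] [Group G] (ι : K →* G) (t : G)
    (χ : G →* Multiplicative ℤ),
    Subgroup.closure (Set.range ι ∪ {t}) = ⊤ → (∀ k, χ (ι k) = 1) →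
    χ t = Multiplicative.ofAdd 1 →
    (∀ (d : ℕ → ℕ) (f : ∀ n, G → Matrix.unitaryGroup (Fin (d n)) ℂ), OpAH d f →
      ∀ k : K, Tendsto (fun n => on ((f n (ι k)).val - 1)) atTop (𝓝 0)) →
    (∀ (d : ℕ → ℕ) (f : ∀ n, G → Matrix.unitaryGroup (Fin (d n)) ℂ), OpAH d f →
      ∃ ρ : ∀ n : ℕ, G →* Matrix.unitaryGroup (Fin (d n)) ℂ,
        ∀ g : G, Tendsto (fun n => on ((f n g).val - (ρ n g).val)) atTop (𝓝 0)) ∧
    ∀ (d : ℕ) (ρ : G →* Matrix.unitaryGroup (Fin d) ℂ) (k : K), ρ (ι k) = 1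

/-- TT: property (T). -/
def S_TT : Prop :=
  ∀ (A : Type) [Ring A] [Algebra (ZMod 257) A] (g : Fin 4 → A),
    Algebra.adjoin (ZMod 257) (Set.range g) = ⊤ → HasT (E3 A)

/-- FG: groups with property (T) are finitely generated. -/
def S_FG : Prop :=
  ∀ (G : Type) [Group G], HasT G →
      ∃ (k : ℕ) (γ : FreeGroup (Fin k) →* G), Function.Surjective γ

theorem final_of (hTR : S_TRIV) (hR : S_RING) (hE : S_EPHI) (hP : S_PERM) (hG : S_GRP)
    (hF : S_FIN) (hT : S_TT) (hFG : S_FG) :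
    ¬ (∀ (G : Type) [Group G] [Countable G],
      (∀ (k : ℕ → ℕ) (φ : ∀ n : ℕ, G → Matrix.unitaryGroup (Fin (k n)) ℂ),
        (∀ g h : G, Tendsto (fun n : ℕ =>
            ‖Matrix.toEuclideanCLM (𝕜 := ℂ)
              ((φ n (g * h)).val - (φ n g).val * (φ n h).val)‖) atTop (𝓝 0)) →
        ∃ ρ : ∀ n : ℕ, G →* Matrix.unitaryGroup (Fin (k n)) ℂ,
          ∀ g : G, Tendsto (fun n : ℕ =>
            ‖Matrix.toEuclideanCLM (𝕜 := ℂ) ((φ n g).val - (ρ n g).val)‖) atTop (𝓝 0)) →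
      (∀ (k : ℕ → ℕ) (φ : ∀ n : ℕ, G → Matrix.unitaryGroup (Fin (k n)) ℂ),
        (∀ g h : G, Tendsto (fun n : ℕ =>
            (Matrix.trace (Matrix.conjTranspose
                ((φ n (g * h)).val - (φ n g).val * (φ n h).val) *
              ((φ n (g * h)).val - (φ n g).val * (φ n h).val))).re / (k n : ℝ))
            atTop (𝓝 0)) →
        ∃ ρ : ∀ n : ℕ, G →* Matrix.unitaryGroup (Fin (k n)) ℂ,
          ∀ g : G, Tendsto (fun n : ℕ =>
            (Matrix.trace (Matrix.conjTranspose ((φ n g).val - (ρ n g).val) *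
              ((φ n g).val - (ρ n g).val))).re / (k n : ℝ)) atTop (𝓝 0))) := by
  intro hmain
  obtain ⟨R, _, _, g, ψ, p, L, _, π, h1, h2', h3, h4, h5, h6⟩ := hR
  obtain ⟨φ, hc, hφ⟩ := hE R ψ p h2' h3 h4 h5
  obtain ⟨m, u, T, k₀, hPD⟩ := hP R ψ L π φ hφ h6
  have hK : HasT (E3 R) := hT R g h1
  obtain ⟨k, γ, hγ⟩ := hFG _ hK
  have : Countable (E3 R) := hγ.countable
  obtain ⟨G, _, _, ι, t, χ, e1, e2, e3, e4, f, e5, e6⟩ := hG (E3 R) φ m u T k₀ hPD
  obtain ⟨q1, q2⟩ := hF (E3 R) G ι t χ e2 e3 e4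
    (fun d f hf => hTR (E3 R) G φ ι t hK hc e1 d f hf)
  obtain ⟨ρ, hρ⟩ := hmain G (fun k φ h => q1 k φ h) m f e5
  apply e6
  have := hρ (ι k₀)
  simp only [q2] at this
  exact this

end

end Pool.Agent.N139.MS
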